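import Pool.Agent.L5helper4.DL.Poly
import Pool.Agent.Results.MP_40574a_nt.PrimesInProgressions

/-!
# Four squares and almost prime quadruples, for every large integer: popular differences

Q1 asks for a representation of `n` as a sum of four squares for which `p = x + 2 y + 5 z` and `p - 2`, `p + 4`,
`p + 10` are primes. Let `P` be the set of all the primes `p = x + 2 y + 5 z`, at representations of `n` as a sum of
four squares of natural numbers, for which `p - 2`, `p + 4`, `p + 10` have at most `R` prime factors, all of them larger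
than `n ^ (1 / R)`.

Theorem. For every `l` and every large `n` not divisible by `4` and for EVERY `D` between `(log n) ^ B` and
`√n / (log n) ^ B` at least `c D` of the differences `d ≤ D` are such that ALL the parts `F ∋ 0` of the progression
`0, 1, …, l - 1` occur in `P` with the difference `d` at least `c √n / (log n) ^ (4 |F|)` times, which is the order of
magnitude of the prediction for the prime quadruples. The same is true for every large `n` not divisible by `4` and ALL
sets of at least `δ √n / (log n) ^ 4` primes `p`, `29 n ≤ p ^ 2 ≤ 30 n`, such that `p - 2`, `p + 4`, `p + 10` have no prime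
factor `≤ n ^ κ`; for instance for the first members of the quadruples of primes, if they have the expected order of
magnitude. All these `p` are values of `x + 2 y + 5 z`.

Method. The relative theorem on popular differences for primes with almost prime values of polynomials
(`Pool.Agent.L5helper4.DL.polyDense`, helper4; relative Szemerédi theorem of Conlon, Fox and Zhao), the
representation lemma of `Pool.Agent.H141R2.FS` and, for the number of the quadruples in a narrow window, the starting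
result `PrimesInProgressions` (theorem of Bombieri and Vinogradov).
-/

set_option autoImplicit false

namespace Pool.Agent.Results.MP_40574a_nt.PopularDifferences

open Finset Filter Polynomial
open Pool.Agent.W182.PW Pool.Agent.W123.RU.Poly

/-- `p` is the value of `x + 2 y + 5 z` at a representation of `n` as a sum of four squares of
natural numbers -/
def Val (n p : ℕ) : Prop :=
  ∃ x y z w : ℕ, n = x ^ 2 + y ^ 2 + z ^ 2 + w ^ 2 ∧ p = x + 2 * y + 5 * z

/-- `p` is a value at a representation of `n`, `p` is prime, and `p - 2`, `p + 4`, `p + 10` have at most `r` prime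
factors (with multiplicity), all of them larger than `z` -/
def Quadruple (n r : ℕ) (z : ℝ) (p : ℕ) : Prop :=
  Val n p ∧ p.Prime ∧ ∀ m ∈ ({p - 2, p + 4, p + 10} : Finset ℕ), m.primeFactorsList.length ≤ r ∧
    ∀ q : ℕ, q.Prime → q ∣ m → z < (q : ℝ)

open Classical in
/-- the number of the elements `p` of `P` such that `p + j d` is in `P` for all `j ∈ F` -/
noncomputable def occurrences (P : Finset ℕ) (F : Finset ℕ) (d : ℕ) : ℕ :=
  (P.filter (fun p => ∀ j ∈ F, p + j * d ∈ P)).card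

open Classical in
/-- For all `D` between `(log n) ^ B` and `√n / (log n) ^ B` at least `c D` of the `1 ≤ d ≤ D` are such that for
every `F ⊆ {0, …, l - 1}` with `0 ∈ F` at least `c √n / (log n) ^ (4 |F|)` elements `p` of `P` are such that
`p + j d` is in `P` for all `j ∈ F`. -/
def Popular (l B : ℕ) (c : ℝ) (n : ℕ) (P : Finset ℕ) : Prop :=
  ∀ D : ℕ, Real.log n ^ B ≤ D → D * Real.log n ^ B ≤ √(n : ℝ) →
    c * D ≤ (((Icc 1 D).filter (fun d => ∀ F ⊆ range l, 0 ∈ F →
      c * (√(n : ℝ) / Real.log n ^ (4 * F.card)) ≤ (occurrences P F d : ℝ))).card : ℝ)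

/-- the three shifts -/
def sh : Fin 3 → ℤ := ![2, -4, -10]

/-- the polynomials `X - 2`, `X + 4`, `X + 10` -/
noncomputable def fs (i : Fin 3) : ℤ[X] := X - C (sh i)

lemma fs_eval (i : Fin 3) (p : ℤ) : (fs i).eval p = p - sh i := by
  unfold fs
  simp

lemma sys : Sys (ext fs) := by
  apply Pool.Agent.L5helper4.DL.sys_ext
  · intro i
    exact irreducible_X_sub_C _
  · intro i
    unfold fs
    rw [natDegree_X_sub_C]
    norm_num
  · intro i
    unfold fs
    rw [leadingCoeff_X_sub_C]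
    norm_num
  · intro i j h
    have h1 := congrArg (fun f => f.eval (0 : ℤ)) h
    simp only [fs_eval, zero_sub, neg_inj] at h1
    revert h1
    unfold sh
    fin_cases i <;> fin_cases j <;> simp
  · intro i h
    have h1 := congrArg (fun f => f.eval (0 : ℤ)) h
    simp only [fs_eval, eval_X] at h1
    revert h1
    unfold sh
    fin_cases i <;> simp
  · intro p hp
    by_cases h : p = 5 ∨ p = 11
    · refine ⟨3, ?_, ?_⟩
      · rcases h with rfl | rfl <;> norm_num
      · intro i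
        rw [fs_eval]
        unfold sh
        rcases h with rfl | rfl <;> fin_cases i <;> norm_num
    · push Not at h
      refine ⟨1, ?_, ?_⟩
      · intro hd
        exact hp.one_lt.ne' (Nat.dvd_one.1 hd)
      · intro i
        rw [fs_eval]
        unfold sh
        intro hd
        have hd' : (p : ℤ) ∣ 1 ∨ (p : ℤ) ∣ 5 ∨ (p : ℤ) ∣ 11 := by
          fin_cases i
          · left
            have h2 : (p : ℤ) ∣ -1 := by simpa using hd
            simpa using h2
          · right; left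
            simpa using hd
          · right; right
            simpa using hd
        rcases hd' with hd | hd | hd
        · have h2 : p ∣ 1 := by exact_mod_cast hd
          exact hp.one_lt.ne' (Nat.dvd_one.1 h2)
        · have h2 : p ∣ 5 := by exact_mod_cast hd
          exact h.1 ((Nat.prime_dvd_prime_iff_eq hp (by norm_num)).1 h2)
        · have h2 : p ∣ 11 := by exact_mod_cast hd
          exact h.2 ((Nat.prime_dvd_prime_iff_eq hp (by norm_num)).1 h2)

lemma Popular.mono {l B n : ℕ} {c : ℝ} {P T : Finset ℕ} (h : Popular l B c n P) (hPT : P ⊆ T) :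
    Popular l B c n T := by
  classical
  intro D h1 h2
  refine (h D h1 h2).trans ?_
  have : (Icc 1 D).filter (fun d => ∀ F ⊆ range l, 0 ∈ F →
      c * (√(n : ℝ) / Real.log n ^ (4 * F.card)) ≤ (occurrences P F d : ℝ)) ⊆
      (Icc 1 D).filter (fun d => ∀ F ⊆ range l, 0 ∈ F →
      c * (√(n : ℝ) / Real.log n ^ (4 * F.card)) ≤ (occurrences T F d : ℝ)) := by
    intro d hd
    rw [mem_filter] at hd ⊢
    refine ⟨hd.1, fun F hF h0 => (hd.2 F hF h0).trans ?_⟩
    have h3 : occurrences P F d ≤ occurrences T F d := by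
      unfold occurrences
      apply card_le_card
      intro p hp
      rw [mem_filter] at hp ⊢
      exact ⟨hPT hp.1, fun j hj => hPT (hp.2 j hj)⟩
    exact_mod_cast h3
  exact_mod_cast card_le_card this

/-- `p` is a value if `29 n ≤ p ^ 2 ≤ 30 n` and `p` is a prime larger than `5` -/
lemma val_of_prime {n p : ℕ} (h4 : ¬ 4 ∣ n) (hp : p.Prime) (hp5 : 5 < p) (h1 : 29 * n ≤ p ^ 2)
    (h2 : p ^ 2 ≤ 30 * n) : Val n p := by
  have h30 : Nat.Coprime p 30 := by
    rw [Nat.Prime.coprime_iff_not_dvd hp]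
    intro hd
    have h3 : p ∣ 2 * (3 * 5) := by simpa using hd
    rw [hp.dvd_mul, hp.dvd_mul] at h3
    rcases h3 with h | h | h
    · have := Nat.le_of_dvd (by norm_num) h
      omega
    · have := Nat.le_of_dvd (by norm_num) h
      omega
    · have := Nat.le_of_dvd (by norm_num) h
      omega
  obtain ⟨x, y, z, w, h3, h5⟩ := Pool.Agent.H141R2.FS.rep h4 h30 h1 h2
  exact ⟨x, y, z, w, h3, h5.symm⟩

/-- the relative theorem -/
theorem rel (l : ℕ) (κ δ : ℝ) (hκ : 0 < κ) (hδ : 0 < δ) :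
    ∃ (B : ℕ) (c : ℝ), 0 < c ∧ ∀ᶠ n : ℕ in atTop, ¬ 4 ∣ n → ∀ P : Finset ℕ,
      (∀ p ∈ P, 29 * n ≤ p ^ 2 ∧ p ^ 2 ≤ 30 * n ∧ p.Prime ∧
        ∀ m ∈ ({p - 2, p + 4, p + 10} : Finset ℕ), ∀ q : ℕ, q.Prime → q ∣ m → (n : ℝ) ^ κ < (q : ℝ)) →
      δ * (√(n : ℝ) / Real.log n ^ 4) ≤ P.card →
        (∀ p ∈ P, Val n p) ∧ Popular l B c n P := by
  classical
  obtain ⟨κ', hκ'⟩ : ∃ κ', κ' = min κ (1 / 2) := ⟨_, rfl⟩
  have hκ'0 : 0 < κ' := by rw [hκ']; exact lt_min hκ (by norm_num)
  have hκ'1 : κ' < 1 := by rw [hκ']; exact (min_le_right _ _).trans_lt (by norm_num)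
  have hκ'κ : κ' ≤ κ := by rw [hκ']; exact min_le_left _ _
  obtain ⟨B, c, hc, h⟩ := Pool.Agent.L5helper4.DL.polyDense fs sys l κ' (δ / 96) hκ'0 hκ'1 (by positivity)
  rw [Fintype.card_fin] at h
  refine ⟨B, c, hc, ?_⟩
  have tsq : Tendsto (fun n : ℕ => Nat.sqrt (30 * n)) atTop atTop := by
    apply tendsto_atTop_atTop.2
    intro b
    refine ⟨b ^ 2, fun n hn => ?_⟩
    rw [Nat.le_sqrt, ← sq]
    omega
  filter_upwards [tsq.eventually h, eventually_ge_atTop 100] with n hn hn100
  intro h4 P hP hPc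
  obtain ⟨x, hx⟩ : ∃ x, x = Nat.sqrt (30 * n) := ⟨_, rfl⟩
  rw [← hx] at hn
  have hn0 : (0 : ℝ) < n := by exact_mod_cast (by omega : 0 < n)
  have hn1 : (100 : ℝ) ≤ n := by exact_mod_cast hn100
  have hx30 : x * x ≤ 30 * n := by rw [hx]; exact Nat.sqrt_le _
  have hxlow : 30 * n < (x + 1) * (x + 1) := by rw [hx]; exact Nat.lt_succ_sqrt _
  have hxn : x ≤ n := by nlinarith
  have hxs : √(n : ℝ) ≤ x := by
    apply Real.sqrt_le_iff.2
    refine ⟨by positivity, ?_⟩
    have h1 : n ≤ x ^ 2 := by nlinarith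
    exact_mod_cast h1
  have hxs2 : (x : ℝ) ≤ 6 * √(n : ℝ) := by
    have h1 : (x : ℝ) ^ 2 ≤ (6 * √(n : ℝ)) ^ 2 := by
      rw [mul_pow, Real.sq_sqrt hn0.le]
      have : ((x * x : ℕ) : ℝ) ≤ ((30 * n : ℕ) : ℝ) := by exact_mod_cast hx30
      push_cast at this
      nlinarith
    exact le_of_sq_le_sq h1 (by positivity)
  have hs10 : (10 : ℝ) ≤ √(n : ℝ) := by
    rw [show (10 : ℝ) = √100 by rw [show (100 : ℝ) = 10 ^ 2 by norm_num, Real.sqrt_sq (by norm_num)]]
    exact Real.sqrt_le_sqrt hn1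
  have hx0 : (0 : ℝ) < x := by linarith
  have hlogx : 0 < Real.log x := Real.log_pos (by linarith)
  have hlogn : Real.log x ≤ Real.log n := Real.log_le_log hx0 (by exact_mod_cast hxn)
  have hlogn0 : 0 < Real.log n := hlogx.trans_le hlogn
  have hlogx2 : Real.log n ≤ 2 * Real.log x := by
    have h1 : Real.log (√(n : ℝ)) ≤ Real.log x := Real.log_le_log (by positivity) hxs
    rw [Real.log_sqrt hn0.le] at h1
    linarith
  have hP2 : ∀ p ∈ P, p ≤ x ∧ 5 < p := by
    intro p hp
    obtain ⟨h1, h2, -, -⟩ := hP p hp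
    constructor
    · rw [hx, Nat.le_sqrt, ← sq]
      exact h2
    · nlinarith
  refine ⟨fun p hp => val_of_prime h4 (hP p hp).2.2.1 (hP2 p hp).2 (hP p hp).1 (hP p hp).2.1, ?_⟩
  intro D hD1 hD2
  have hkey := hn P (fun p hp => ⟨(hP2 p hp).1, (hP p hp).2.2.1, fun i q hq hd => by
    rw [fs_eval] at hd
    have hq2 : (n : ℝ) ^ κ < (q : ℝ) := by
      have h5 := (hP2 p hp).2
      have hm := (hP p hp).2.2.2
      revert hd
      unfold sh
      fin_cases i
      · intro hd
        refine hm (p - 2) (by simp) q hq ?_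
        have h6 : (q : ℤ) ∣ ((p - 2 : ℕ) : ℤ) := by
          rw [Nat.cast_sub (by omega)]
          simpa using hd
        exact_mod_cast h6
      · intro hd
        refine hm (p + 4) (by simp) q hq ?_
        have h6 : (q : ℤ) ∣ ((p + 4 : ℕ) : ℤ) := by
          push_cast
          simpa using hd
        exact_mod_cast h6
      · intro hd
        refine hm (p + 10) (by simp) q hq ?_
        have h6 : (q : ℤ) ∣ ((p + 10 : ℕ) : ℤ) := by
          push_cast
          simpa using hd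
        exact_mod_cast h6
    refine lt_of_le_of_lt ?_ hq2
    calc (x : ℝ) ^ κ' ≤ (n : ℝ) ^ κ' := Real.rpow_le_rpow hx0.le (by exact_mod_cast hxn) hκ'0.le
      _ ≤ (n : ℝ) ^ κ := Real.rpow_le_rpow_of_exponent_le (by linarith) hκ'κ⟩) (by
    refine le_trans ?_ hPc
    calc δ / 96 * (x / Real.log x ^ (3 + 1)) ≤ δ / 96 * (6 * √(n : ℝ) / (Real.log n / 2) ^ (3 + 1)) := by
          gcongr
          linarith
      _ = δ * (√(n : ℝ) / Real.log n ^ 4) := by
          field_simp
          ring) D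
    ((pow_le_pow_left₀ hlogx.le hlogn B).trans hD1)
    (by
      calc (D : ℝ) * Real.log x ^ B ≤ D * Real.log n ^ B := by gcongr
        _ ≤ √(n : ℝ) := hD2
        _ ≤ x := hxs)
  refine hkey.trans ?_
  have hsub : (Icc 1 D).filter (fun d => ∀ F ⊆ range l, 0 ∈ F →
        c * (x / Real.log x ^ ((3 + 1) * F.card)) ≤
          ((P.filter (fun p => ∀ j ∈ F, p + j * d ∈ P)).card : ℝ)) ⊆
      (Icc 1 D).filter (fun d => ∀ F ⊆ range l, 0 ∈ F →
      c * (√(n : ℝ) / Real.log n ^ (4 * F.card)) ≤ (occurrences P F d : ℝ)) := by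
    intro d hd
    rw [mem_filter] at hd ⊢
    refine ⟨hd.1, fun F hF h0 => le_trans ?_ ((hd.2 F hF h0).trans (le_of_eq ?_))⟩
    · gcongr
    · unfold occurrences
      congr!
  exact_mod_cast card_le_card hsub

lemma len_lt {m n r s : ℕ} (hs : 1 ≤ s) (hm : m ≠ 0) (h : ∀ q : ℕ, q.Prime → q ∣ m → s + 1 ≤ q) (hmn : m ≤ n)
    (hn : n < (s + 1) ^ r) : m.primeFactorsList.length ≤ r := by
  have h1 : (s + 1) ^ m.primeFactorsList.length ≤ m.primeFactorsList.prod :=
    List.pow_card_le_prod _ _ (fun q hq => h q (Nat.prime_of_mem_primeFactorsList hq)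
      (Nat.dvd_of_mem_primeFactorsList hq))
  rw [Nat.prod_primeFactorsList hm] at h1
  exact (Nat.pow_lt_pow_iff_right (by omega)).1 (h1.trans_lt (hmn.trans_lt hn)) |>.le

/-- the product in the starting result is at least `c / (log s) ^ 3` -/
lemma W_low : ∃ c₀ : ℝ, 0 < c₀ ∧ ∀ s : ℕ, 2 ≤ s → c₀ / Real.log s ^ 3 ≤ PrimesInProgressions.W 30 s := by
  obtain ⟨c₀, hc₀, h⟩ := Pool.Agent.W123.RP.prod_lower (fun p => if p ∣ 30 then 0 else 3) 3
    (fun p _ => by
      split_ifs <;> omega)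
    (fun p hp => by
      split_ifs with h
      · exact hp.two_le
      · have := hp.two_le
        rcases (by omega : p = 2 ∨ p = 3 ∨ p = 4 ∨ 5 ≤ p) with rfl | rfl | rfl | h5
        · exact absurd (by norm_num) h
        · exact absurd (by norm_num) h
        · exact absurd hp (by norm_num)
        · omega)
  refine ⟨c₀, hc₀, fun s hs => (h s hs).trans ?_⟩
  unfold PrimesInProgressions.W
  have hset : Pool.Agent.H373R2.T7.pz s = (Finset.range (s + 1)).filter Nat.Prime := by
    ext p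
    rw [Pool.Agent.H373R2.T7.mem_pz, mem_filter, mem_range]
    constructor
    · rintro ⟨h1, h2⟩
      exact ⟨by omega, h2⟩
    · rintro ⟨h1, h2⟩
      exact ⟨by omega, h2⟩
  rw [hset]
  apply Finset.prod_le_prod
  · intro p hp
    have hp2 := (mem_filter.1 hp).2
    by_cases h : p ∣ 30
    · simp [h]
    · have h5 : 7 ≤ p := by
        have := hp2.two_le
        by_contra hlt
        push Not at hlt
        interval_cases p
        · exact h (by norm_num)
        · exact h (by norm_num)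
        · exact absurd hp2 (by norm_num)
        · exact h (by norm_num)
        · exact absurd hp2 (by norm_num)
      have h6 : (7 : ℝ) ≤ p := by exact_mod_cast h5
      rw [if_neg h, sub_nonneg]
      push_cast
      rw [div_le_one (by linarith)]
      linarith
  · intro p hp
    have hp2 := (mem_filter.1 hp).2
    have hp3 : (2 : ℝ) ≤ p := by exact_mod_cast hp2.two_le
    have h1 : (0 : ℝ) < 1 - 1 / p := by
      rw [sub_pos, div_lt_one (by linarith)]
      linarith
    rw [le_div_iff₀ h1]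
    by_cases h : p ∣ 30
    · simp only [if_pos h, Nat.cast_zero, zero_div, sub_zero, one_mul]
      have : (0 : ℝ) ≤ 1 / p := by positivity
      linarith
    · simp only [if_neg h]
      push_cast
      have h2 : (p : ℝ) - 1 ≠ 0 := by
        have : (0 : ℝ) < (p : ℝ) - 1 := by linarith
        exact this.ne'
      have h3 : (p : ℝ) ≠ 0 := by positivity
      apply le_of_eq
      field_simp
      ring

open Classical in
/-- the number of the primes `p` with almost prime `p - 2`, `p + 4`, `p + 10` in the window -/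
theorem many : ∃ (R : ℕ) (c : ℝ), 2 ≤ R ∧ 0 < c ∧ ∀ᶠ n : ℕ in atTop, ¬ 4 ∣ n → ∃ P : Finset ℕ,
    (∀ p ∈ P, 29 * n ≤ p ^ 2 ∧ p ^ 2 ≤ 30 * n ∧ p.Prime ∧
      ∀ m ∈ ({p - 2, p + 4, p + 10} : Finset ℕ), m.primeFactorsList.length ≤ R ∧
        ∀ q : ℕ, q.Prime → q ∣ m → (n : ℝ) ^ (1 / (R : ℝ)) < (q : ℝ)) ∧
      c * (√(n : ℝ) / Real.log n ^ 4) ≤ P.card := by
  obtain ⟨r, hr2, h⟩ := PrimesInProgressions.result 30 (by
      rw [Nat.squarefree_iff_prime_squarefree]
      intro p hp hd
      have h1 : p * p ≤ 30 := Nat.le_of_dvd (by norm_num) hd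
      have h2 : p ≤ 5 := by nlinarith
      interval_cases p <;> revert hp hd <;> norm_num) (dvd_refl 30) (1 / 1000)
    (by norm_num) 1 (1 / 2) (by norm_num) (by norm_num)
  obtain ⟨c₀, hc₀, hW⟩ := W_low
  refine ⟨r, c₀ / 2000, hr2, by positivity, ?_⟩
  have tN : Tendsto (fun N : ℕ => (N : ℝ)) atTop atTop := tendsto_natCast_atTop_atTop
  have hr0 : (0 : ℝ) < r := by exact_mod_cast (by omega : 0 < r)
  have t1 : Tendsto (fun N : ℕ => (N : ℝ) ^ (1 / (r : ℝ))) atTop atTop :=
    (tendsto_rpow_atTop (by positivity)).comp tN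
  filter_upwards [h r le_rfl, t1.eventually_ge_atTop 3, eventually_ge_atTop (10 ^ 8)] with n hn hz hn8
  intro h4
  obtain ⟨s, hs⟩ : ∃ s : ℕ, s = ⌊(n : ℝ) ^ (1 / (r : ℝ))⌋₊ := ⟨_, rfl⟩
  obtain ⟨-, hn'⟩ := hn h4 s hs
  have hn0 : (0 : ℝ) < n := by exact_mod_cast (by omega : 0 < n)
  have hs2 : 3 ≤ s := by
    rw [hs]
    exact Nat.le_floor (by exact_mod_cast hz)
  have hsn : (s : ℝ) ≤ (n : ℝ) ^ (1 / (r : ℝ)) := by
    rw [hs]
    exact Nat.floor_le (by positivity)
  have hns : (n : ℝ) ^ (1 / (r : ℝ)) < (s : ℝ) + 1 := by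
    rw [hs]
    exact Nat.lt_floor_add_one _
  have hnpow : n < (s + 1) ^ r := by
    have h1 : ((n : ℝ) ^ (1 / (r : ℝ))) ^ r < ((s : ℝ) + 1) ^ r :=
      pow_lt_pow_left₀ hns (by positivity) (by omega)
    rw [one_div, Real.rpow_inv_natCast_pow hn0.le (by omega)] at h1
    exact_mod_cast h1
  have hlogs : Real.log s ≤ Real.log n := by
    refine Real.log_le_log (by exact_mod_cast (by omega : 0 < s)) (hsn.trans ?_)
    calc (n : ℝ) ^ (1 / (r : ℝ)) ≤ (n : ℝ) ^ (1 : ℝ) := by
          apply Real.rpow_le_rpow_of_exponent_le (by exact_mod_cast (by omega : 1 ≤ n))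
          rw [div_le_one hr0]
          exact_mod_cast (by omega : 1 ≤ r)
      _ = n := Real.rpow_one _
  have hlogs0 : 0 < Real.log s := Real.log_pos (by exact_mod_cast (by omega : 1 < s))
  have hlogn0 : 0 < Real.log n := hlogs0.trans_le hlogs
  -- the window
  obtain ⟨X, hX⟩ : ∃ X, X = Nat.sqrt (30 * n) := ⟨_, rfl⟩
  obtain ⟨Z, hZ⟩ : ∃ Z, Z = Nat.sqrt (29 * n) + 1 := ⟨_, rfl⟩
  have hX1 : X * X ≤ 30 * n := by rw [hX]; exact Nat.sqrt_le _
  have hX2 : 30 * n < (X + 1) * (X + 1) := by rw [hX]; exact Nat.lt_succ_sqrt _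
  have hZ1 : 29 * n < Z * Z := by rw [hZ]; exact Nat.lt_succ_sqrt _
  have hZ2 : (Z - 1) * (Z - 1) ≤ 29 * n := by rw [hZ, Nat.add_sub_cancel]; exact Nat.sqrt_le _
  have hX12 : X + 12 ≤ n := by
    by_contra hlt
    push Not at hlt
    have h1 : X * X ≤ 30 * (X + 11) := hX1.trans (by omega)
    have h2 : X ≤ 50 := by
      by_contra h3
      push Not at h3
      have h4 : 51 * X ≤ X * X := Nat.mul_le_mul_right _ h3
      omega
    omega
  obtain ⟨S, hS⟩ : ∃ S, S = √(n : ℝ) := ⟨_, rfl⟩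
  have hS0 : 0 ≤ S := by rw [hS]; positivity
  have hSS : S ^ 2 = n := by rw [hS]; exact Real.sq_sqrt hn0.le
  have hS4 : (10000 : ℝ) ≤ S := by
    rw [hS, show (10000 : ℝ) = √(10 ^ 8) by
      rw [show ((10 : ℝ) ^ 8) = 10000 ^ 2 by norm_num, Real.sqrt_sq (by norm_num)]]
    exact Real.sqrt_le_sqrt (by exact_mod_cast hn8)
  have hXr : 5.476 * S ≤ (X : ℝ) + 1 := by
    apply le_of_sq_le_sq _ (by positivity)
    have h1 : ((30 * n : ℕ) : ℝ) ≤ (((X + 1) * (X + 1) : ℕ) : ℝ) := by exact_mod_cast hX2.le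
    push_cast at h1
    rw [← hSS] at h1
    nlinarith
  have hZr : (Z : ℝ) - 1 ≤ 5.386 * S := by
    apply le_of_sq_le_sq _ (by positivity)
    have hZ3 : 1 ≤ Z := by rw [hZ]; omega
    have h1 : (((Z - 1) * (Z - 1) : ℕ) : ℝ) ≤ ((29 * n : ℕ) : ℝ) := by exact_mod_cast hZ2
    push_cast [Nat.cast_sub hZ3] at h1
    rw [← hSS] at h1
    nlinarith
  have hZX : Z + 60 ≤ X := by
    have : (Z : ℝ) + 60 ≤ X := by linarith
    exact_mod_cast this
  obtain ⟨u, hu⟩ : ∃ u, u = Z / 30 := ⟨_, rfl⟩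
  obtain ⟨Y, hY⟩ : ∃ Y, Y = (X - 13) / 30 - u := ⟨_, rfl⟩
  have huY : u + Y = (X - 13) / 30 := by omega
  have hw1 : 29 * n ≤ (30 * (u + 1) + 11 + 2) ^ 2 := by
    have h1 : Z ≤ 30 * (u + 1) + 11 + 2 := by omega
    have h2 : Z * Z ≤ (30 * (u + 1) + 11 + 2) * (30 * (u + 1) + 11 + 2) := Nat.mul_le_mul h1 h1
    rw [sq]
    omega
  have hXY : 30 * (u + Y) + 11 + 2 ≤ X := by omega
  have hw2 : (30 * (u + Y) + 11 + 2) ^ 2 ≤ 30 * n := by
    rw [sq]
    exact (Nat.mul_le_mul hXY hXY).trans hX1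
  have hYr : 1 / 1000 * S ≤ (Y : ℝ) := by
    have h1 : X ≤ 30 * (u + Y) + 42 := by omega
    have h2 : 30 * u ≤ Z := by omega
    have h3 : (X : ℝ) ≤ 30 * (u + Y) + 42 := by exact_mod_cast h1
    have h4 : 30 * (u : ℝ) ≤ Z := by exact_mod_cast h2
    linarith
  rw [hS] at hYr
  have hkey := (hn' 11 (by norm_num) (by decide) 2 (by decide) u Y hYr hw1 hw2).1
  obtain ⟨T, hT⟩ : ∃ T, T = PrimesInProgressions.P n 30 11 2 s u Y := ⟨_, rfl⟩
  rw [← hT] at hkey
  have hTm : ∀ m ∈ T, (u < m ∧ m ≤ u + Y) ∧ (30 * m + 11 + 2).Prime ∧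
      ∀ l : ℕ, l.Prime → l ≤ s → ∀ h ∈ ({0, 2, 6, 12} : Finset ℕ), ¬ l ∣ 30 * m + 11 + h := by
    intro m hm
    rw [hT] at hm
    unfold PrimesInProgressions.P at hm
    rw [mem_filter, mem_Ioc] at hm
    exact ⟨hm.1, hm.2.1, hm.2.2.2⟩
  refine ⟨T.image (fun m => 30 * m + 11 + 2), ?_, ?_⟩
  · intro p hp
    rw [mem_image] at hp
    obtain ⟨m, hm, rfl⟩ := hp
    obtain ⟨⟨hm1, hm2⟩, hm3, hm4⟩ := hTm m hm
    have b1 : 30 * (u + 1) + 11 + 2 ≤ 30 * m + 11 + 2 := by omega
    have b2 : 30 * m + 11 + 2 ≤ 30 * (u + Y) + 11 + 2 := by omega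
    refine ⟨hw1.trans (Nat.pow_le_pow_left b1 2), (Nat.pow_le_pow_left b2 2).trans hw2, hm3, ?_⟩
    intro m' hm'
    obtain ⟨h', hh', hm'eq⟩ : ∃ h' ∈ ({0, 2, 6, 12} : Finset ℕ), m' = 30 * m + 11 + h' := by
      rw [mem_insert, mem_insert, mem_singleton] at hm'
      rcases hm' with h' | h' | h'
      · exact ⟨0, by decide, by omega⟩
      · exact ⟨6, by decide, by omega⟩
      · exact ⟨12, by decide, by omega⟩
    have hbig : ∀ q : ℕ, q.Prime → q ∣ m' → s + 1 ≤ q := by
      intro q hq hd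
      by_contra hlt
      push Not at hlt
      rw [hm'eq] at hd
      exact hm4 q hq (by omega) h' hh' hd
    have hh12 : h' ≤ 12 := by
      simp only [mem_insert, mem_singleton] at hh'
      omega
    have hm'n : m' ≤ n := by
      have h1 : m' ≤ X + 12 := by omega
      exact h1.trans hX12
    refine ⟨len_lt (by omega) (by omega) hbig hm'n hnpow, fun q hq hd => ?_⟩
    have h1 : ((s + 1 : ℕ) : ℝ) ≤ q := by exact_mod_cast hbig q hq hd
    push_cast at h1
    linarith
  · rw [card_image_of_injective _ (fun a b hab => by simpa using hab)]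
    have hWs := hW s (by omega)
    have hW3 : c₀ / Real.log n ^ 3 ≤ PrimesInProgressions.W 30 s := by
      refine le_trans ?_ hWs
      gcongr
    have hWpos : 0 < PrimesInProgressions.W 30 s := lt_of_lt_of_le (by positivity) hW3
    have h1 : 1 / 2 * ((Y : ℝ) * PrimesInProgressions.W 30 s) ≤ (T.card : ℝ) * Real.log ((u + Y : ℕ) : ℝ) := by
      have := (abs_le.1 hkey).1
      linarith
    have hlogY : Real.log ((u + Y : ℕ) : ℝ) ≤ Real.log n := by
      apply Real.log_le_log
      · have : 0 < u + Y := by omega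
        exact_mod_cast this
      · have : u + Y ≤ n := by omega
        exact_mod_cast this
    have h2 : 1 / 2 * ((Y : ℝ) * PrimesInProgressions.W 30 s) ≤ (T.card : ℝ) * Real.log n :=
      h1.trans (mul_le_mul_of_nonneg_left hlogY (Nat.cast_nonneg _))
    have h3 : 1 / 2 * ((1 / 1000 * √(n : ℝ)) * (c₀ / Real.log n ^ 3)) ≤ (T.card : ℝ) * Real.log n := by
      refine le_trans ?_ h2
      gcongr
    have h4 : c₀ / 2000 * (√(n : ℝ) / Real.log n ^ 4) =
        1 / 2 * ((1 / 1000 * √(n : ℝ)) * (c₀ / Real.log n ^ 3)) / Real.log n := by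
      field_simp
      ring
    rw [h4, div_le_iff₀ hlogn0]
    exact h3

open Classical in
/-- **Popular differences of the represented almost prime quadruples.** (1) For all `l`, `κ > 0`, `δ > 0` there are `B`
and `c > 0` such that for all large `n` not divisible by `4`: every element `p` of every set `P` of at least
`δ √n / (log n) ^ 4` primes with `29 n ≤ p ^ 2 ≤ 30 n`, such that `p - 2`, `p + 4`, `p + 10` have no prime factor
`≤ n ^ κ`, is a value of `x + 2 y + 5 z` at a representation of `n`, and `P` is popular. (2) There is `R` such that for all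
`l` there are `B` and `c > 0` such that for all large `n` not divisible by `4` the set of all `p ≤ n` with
`Quadruple n R (n ^ (1 / R)) p` is popular. -/
theorem result :
    (∀ (l : ℕ) (κ δ : ℝ), 0 < κ → 0 < δ →
      ∃ (B : ℕ) (c : ℝ), 0 < c ∧ ∀ᶠ n : ℕ in atTop, ¬ 4 ∣ n → ∀ P : Finset ℕ,
        (∀ p ∈ P, 29 * n ≤ p ^ 2 ∧ p ^ 2 ≤ 30 * n ∧ p.Prime ∧
          ∀ m ∈ ({p - 2, p + 4, p + 10} : Finset ℕ), ∀ q : ℕ, q.Prime → q ∣ m → (n : ℝ) ^ κ < (q : ℝ)) →
        δ * (√(n : ℝ) / Real.log n ^ 4) ≤ P.card →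
          (∀ p ∈ P, Val n p) ∧ Popular l B c n P) ∧
    ∃ R : ℕ, 2 ≤ R ∧ ∀ l : ℕ, ∃ (B : ℕ) (c : ℝ), 0 < c ∧ ∀ᶠ n : ℕ in atTop, ¬ 4 ∣ n →
      Popular l B c n ((range (n + 1)).filter (fun p => Quadruple n R ((n : ℝ) ^ (1 / (R : ℝ))) p)) := by
  refine ⟨fun l κ δ hκ hδ => rel l κ δ hκ hδ, ?_⟩
  obtain ⟨R, c₁, hR, hc₁, hmany⟩ := many
  refine ⟨R, hR, fun l => ?_⟩
  have hR0 : (0 : ℝ) < R := by exact_mod_cast (by omega : 0 < R)
  obtain ⟨B, c, hc, hrel⟩ := rel l (1 / R) c₁ (by positivity) hc₁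
  refine ⟨B, c, hc, ?_⟩
  filter_upwards [hmany, hrel, eventually_ge_atTop 1000] with n h1 h2 hn
  intro h4
  obtain ⟨P, hP, hPc⟩ := h1 h4
  obtain ⟨h5, h6⟩ := h2 h4 P (fun p hp => ⟨(hP p hp).1, (hP p hp).2.1, (hP p hp).2.2.1, fun m hm q hq hd =>
    ((hP p hp).2.2.2 m hm).2 q hq hd⟩) hPc
  refine h6.mono fun p hp => ?_
  rw [mem_filter, mem_range]
  refine ⟨?_, h5 p hp, (hP p hp).2.2.1, (hP p hp).2.2.2⟩
  have h7 := (hP p hp).2.1
  nlinarith

end Pool.Agent.Results.MP_40574a_nt.PopularDifferences
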