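import Pool.Agent.L5helper55.SQ.E

/-!
# MP_40574a_nt: prime quadruples at sums of four squares, a semi-random set in place of the primes

The sieve of Eratosthenes is exact for the primes `p ≤ w r` and random for the primes `w r < p ≤ r ^ θ`. We prove the
asymptotic formula of Hardy and Littlewood, with the true singular series of the quadruple, for the values
`p = x + 2 y + 5 z` at the representations `n = x² + y² + z² + t²` with `p - 2`, `p`, `p + 4`, `p + 10` in this set, for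
every large `n` not divisible by `4` and in all short intervals of the range `29 n ≤ p² ≤ 30 n`. The law of the
semi-random sieve for systems of polynomials is the theorem `semi_law` of `Pool.Agent.L5helper86.UL`.
-/

set_option autoImplicit false

namespace Pool.Agent.Results.MP_40574a_nt.SemiRandomQuadruples

open Finset MeasureTheory ProbabilityTheory Filter Topology
open Pool.Agent.L5helper55

/-- the semi-random set `R`: the positive integers `r` without prime factors `p ≤ w r` and with `r ≢ a p` modulo `p` for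
the primes `w r < p ≤ r ^ θ` -/
def InR (w : ℕ → ℝ) (θ : ℝ) (a : ℕ → ℕ) (r : ℕ) : Prop :=
  0 < r ∧ ∀ p : ℕ, p.Prime → ((p : ℝ) ≤ w r → ¬ p ∣ r) ∧ (w r < p → (p : ℝ) ≤ (r : ℝ) ^ θ → ¬ r ≡ a p [MOD p])

/-- `p = x + 2 y + 5 z` for a representation `n = x² + y² + z² + t²`, and `p - 2`, `p`, `p + 4`, `p + 10` are in `R` -/
def Admissible (w : ℕ → ℝ) (θ : ℝ) (a : ℕ → ℕ) (n p : ℕ) : Prop :=
  2 < p ∧ InR w θ a (p - 2) ∧ InR w θ a p ∧ InR w θ a (p + 4) ∧ InR w θ a (p + 10) ∧
    ∃ x y z t : ℕ, n = x ^ 2 + y ^ 2 + z ^ 2 + t ^ 2 ∧ p = x + 2 * y + 5 * z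

/-- the number of the residues `t` modulo `p` for which `p` divides `(t - 2) t (t + 4) (t + 10)` -/
def rho (p : ℕ) : ℕ := #((range p).filter fun t : ℕ => (p : ℤ) ∣ ((t : ℤ) - 2) * t * (t + 4) * (t + 10))

open Classical in
theorem result {Ω : Type} [MeasurableSpace Ω] (P : Measure Ω) [IsProbabilityMeasure P] (a : ℕ → Ω → ℕ)
    (hmeas : ∀ p, Measurable (a p)) (hind : iIndepFun (fun p : Nat.Primes => a p) P)
    (hunif : ∀ p r : ℕ, p.Prime → r < p → P.real {ω | a p ω = r} = 1 / p)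
    (θ : ℝ) (hθ : 0 < θ) (w : ℕ → ℝ) (hw : Monotone w) (hlow : ∀ᶠ n : ℕ in atTop, 5 ≤ w n)
    (hup : ∀ ε : ℝ, 0 < ε → ∀ᶠ n : ℕ in atTop, w n ≤ Real.exp (ε * Real.log n / Real.log (Real.log n))) :
    ∃ S : ℝ, 0 < S ∧
      Tendsto (fun y : ℕ => ∏ p ∈ (Icc 1 y).filter Nat.Prime, (1 - (rho p : ℝ) / p) / (1 - 1 / (p : ℝ)) ^ 4)
        atTop (𝓝 S) ∧
      ∀ᵐ ω ∂P,
        Tendsto (fun x : ℕ => (#((Icc 1 x).filter fun r => InR w θ (fun p => a p ω) r) : ℝ) * (Real.log x / x)) atTop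
          (𝓝 (Real.exp (-Real.eulerMascheroniConstant) / θ)) ∧
        (∀ δ ε : ℝ, 0 < δ → 0 < ε → ∀ᶠ n : ℕ in atTop, ¬ 4 ∣ n → ∀ u H : ℕ,
          29 * n ≤ u ^ 2 → (u + H) ^ 2 ≤ 30 * n → (n : ℝ) ^ δ ≤ H →
          |(#((Ioc u (u + H)).filter fun p => Admissible w θ (fun p => a p ω) n p) : ℝ) -
            16 * (Real.exp (-Real.eulerMascheroniConstant) / θ) ^ 4 * S * (H / (Real.log n) ^ 4)| ≤
              ε * (H / (Real.log n) ^ 4)) ∧
        ∀ᶠ n : ℕ in atTop, ¬ 4 ∣ n → ∃ p : ℕ, Admissible w θ (fun p => a p ω) n p := by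
  have hS : L5helper86.UL.Sys P a := ⟨inferInstance, hmeas, hind, hunif⟩
  obtain ⟨S, hS0, hSt⟩ := SQ.Sg_lim
  refine ⟨S, hS0, hSt, ?_⟩
  filter_upwards [L5helper86.UL.set_density hS hθ hw hup, SQ.quad_short hS hθ hw hlow hup hS0 hSt] with ω h1 h2
  obtain ⟨v0, hv0⟩ := eventually_atTop.1 hlow
  have h3 : ∀ δ ε : ℝ, 0 < δ → 0 < ε → ∀ᶠ n : ℕ in atTop, ¬ 4 ∣ n → ∀ u H : ℕ,
          29 * n ≤ u ^ 2 → (u + H) ^ 2 ≤ 30 * n → (n : ℝ) ^ δ ≤ H →
          |(#((Ioc u (u + H)).filter fun p => Admissible w θ (fun p => a p ω) n p) : ℝ) -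
            16 * (Real.exp (-Real.eulerMascheroniConstant) / θ) ^ 4 * S * (H / (Real.log n) ^ 4)| ≤
              ε * (H / (Real.log n) ^ 4) := by
    intro δ ε hδ hε
    filter_upwards [h2 δ ε hδ hε, eventually_ge_atTop ((v0 + 2) ^ 2)] with n h4 hn h5 u H hu1 hu2 hH
    have huv : v0 + 2 ≤ u := by
      by_contra hcon
      push Not at hcon
      have h8 : u ^ 2 < (v0 + 2) ^ 2 := Nat.pow_lt_pow_left hcon (by norm_num)
      omega
    have h6 := SQ.QQ_eq (w := w) (θ := θ) (a := fun p => a p ω) (n := n) (u := u) (H := H) (by omega)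
      (fun m hm => hv0 m (by omega)) h5 hu1 hu2
    have h7 : (#((Ioc u (u + H)).filter fun p => Admissible w θ (fun p => a p ω) n p) : ℝ) =
        SQ.QQ w θ (fun p => a p ω) u H := h6
    rw [h7]
    exact h4 u H hu1 hu2 hH
  refine ⟨?_, h3, ?_⟩
  · -- the density of the set
    refine h1.congr fun x => ?_
    congr 1
    unfold L5helper86.UL.CC
    norm_cast
    symm
    refine card_nbij' (fun r : ℕ => (r : ℤ)) (fun m : ℤ => m.toNat) ?_ ?_ ?_ ?_
    · intro r hr
      rw [mem_coe, mem_filter, mem_Icc] at hr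
      rw [mem_coe, mem_filter, mem_Ioc]
      refine ⟨by push_cast; omega, fun i => ?_⟩
      rw [L5helper86.UL.sg_eval]
      exact (SQ.SR_iff (by omega)).2 hr.2
    · intro m hm
      rw [mem_coe, mem_filter, mem_Ioc] at hm
      rw [mem_coe, mem_filter, mem_Icc]
      have h5 := hm.2 0
      rw [L5helper86.UL.sg_eval] at h5
      obtain ⟨r, rfl⟩ := Int.eq_ofNat_of_zero_le (show 0 ≤ m by omega)
      simp only [Int.toNat_natCast]
      exact ⟨by omega, (SQ.SR_iff (by omega)).1 h5⟩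
    · intro r _
      simp
    · intro m hm
      rw [mem_coe, mem_filter, mem_Ioc] at hm
      show ((m.toNat : ℕ) : ℤ) = m
      omega
  · -- every large integer
    have hc0 : 0 < Real.exp (-Real.eulerMascheroniConstant) / θ := div_pos (Real.exp_pos _) hθ
    obtain ⟨L, hL⟩ : ∃ L, L = 16 * (Real.exp (-Real.eulerMascheroniConstant) / θ) ^ 4 * S := ⟨_, rfl⟩
    have hL0 : 0 < L := by rw [hL]; positivity
    filter_upwards [h3 (1 / 4) (L / 2) (by norm_num) (by positivity), SQ.top_long, eventually_ge_atTop 2] with n h4 h5 hn h6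
    obtain ⟨h7, h8⟩ := h5
    obtain ⟨u, hu⟩ : ∃ u, u = Nat.sqrt (29 * n) + 1 := ⟨_, rfl⟩
    obtain ⟨H, hH⟩ : ∃ H, H = Nat.sqrt (30 * n) - u := ⟨_, rfl⟩
    have huH : u + H = Nat.sqrt (30 * n) := by omega
    have h9 := h4 h6 u H (by rw [hu]; exact (Nat.lt_succ_sqrt' _).le) (by rw [huH]; exact Nat.sqrt_le' _)
      (by rw [hH, hu]; exact h7)
    rw [← hL] at h9
    have hHpos : (0 : ℝ) < H := by
      have hn0 : (0 : ℝ) < n := by exact_mod_cast (by omega : 0 < n)
      have h10 : (0 : ℝ) < (n : ℝ) ^ ((1 : ℝ) / 4) := by positivity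
      have h11 : (n : ℝ) ^ ((1 : ℝ) / 4) ≤ H := by rw [hH, hu]; exact h7
      linarith
    have hlog : 0 < Real.log n := Real.log_pos (by exact_mod_cast (by omega : 1 < n))
    have hT : 0 < (H : ℝ) / (Real.log n) ^ 4 := by positivity
    have h12 : 0 < (#((Ioc u (u + H)).filter fun p => Admissible w θ (fun p => a p ω) n p) : ℝ) := by
      rw [abs_le] at h9
      have := h9.1
      nlinarith
    have h13 : 0 < #((Ioc u (u + H)).filter fun p => Admissible w θ (fun p => a p ω) n p) := by exact_mod_cast h12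
    obtain ⟨p, hp⟩ := card_pos.1 h13
    exact ⟨p, (mem_filter.1 hp).2⟩

end Pool.Agent.Results.MP_40574a_nt.SemiRandomQuadruples
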