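import Pool.Agent.L5helper16.XC.R2
import Pool.Agent.L5helper16.XC.W

/-!
# EVERY large `n`, `4 ∤ n`: four squares with `p = x + 2 y + 5 z`, `p - 2 + N₀`, `p + 4 + N₁` and `p + 10 + N₂` prime, where the
`N_j` are multiples of a small primorial given by integers whose digits are the labels of walks in a graph

The class of the walks has exponentially small exponential sums in the number of the places at which the frequency is not
near a rational number with a small denominator (starting files, `Pool.Agent.N625.GW`); the passage from such a decay to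
the law for several independent shifts is `Pool.Agent.L5helper16.XC`, after helper625 (`Pool.Agent.N625.PT`), who treats the
random integers with exchangeable blocks of digits.
-/

set_option autoImplicit false

open Finset

namespace Pool.Agent.Results.MP_40574a_nt.WalkQuadruples

/-- The digits `a < b` act on the set `X` of the vertices: an edge with the label `a` leads from `x` to `y` if
`δ x a = some y` (at most one edge with the label `a` starts at `x`). The number of the edges from `x` to `y` equals the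
number of the edges from `y` to `x`, and at least two edges start at every vertex. The graph may be infinite. -/
structure Graph {X : Type} (b : ℕ) (δ : X → ℕ → Option X) : Prop where
  symm : ∀ x y : X, {a : ℕ | a < b ∧ δ x a = some y}.ncard = {a : ℕ | a < b ∧ δ y a = some x}.ncard
  two : ∀ x : X, ∃ a a' : ℕ, a < a' ∧ a' < b ∧ (δ x a).isSome ∧ (δ x a').isSome

open Classical in
/-- The integers `v < b ^ k` whose `k` digits in base `b`, from the most significant to the least significant one (the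
digit number `i`, `0 ≤ i < k`, from the left is `v / b ^ (k - 1 - i) % b`), are the labels of a walk from `x` to `y`. -/
noncomputable def walks {X : Type} (b : ℕ) (δ : X → ℕ → Option X) (k : ℕ) (x y : X) : Finset ℕ :=
  (range (b ^ k)).filter fun v =>
    ((List.range k).map fun i => v / b ^ (k - 1 - i) % b).foldl (fun s a => s.bind fun z => δ z a) (some x) = some y

/-- the product of `1 - 1/q` over the primes `q ≤ y` -/
noncomputable def V (y : ℕ) : ℝ := ∏ q ∈ (Icc 1 y).filter Nat.Prime, (1 - 1 / (q : ℝ))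

/-- the multiple of the product of the primes `≤ y` given by the integers `h` and `c + κ v` -/
def Nv (y h : ℕ) (c κ : ℤ) (v : ℕ) : ℤ := ((primorial y * h : ℕ) : ℤ) * (c + κ * v)

/-- the primes `p` with `29 n ≤ p ^ 2 ≤ 30 n` such that `p - 2`, `p + 4`, `p + 10` are prime to `D 0`, `D 1`, `D 2` -/
def Adm (D : Fin 3 → ℕ) (n : ℕ) : Finset ℕ :=
  (range (30 * n + 1)).filter (fun p : ℕ => 29 * n ≤ p ^ 2 ∧ p ^ 2 ≤ 30 * n ∧ p.Prime ∧
    (p - 2).Coprime (D 0) ∧ (p + 4).Coprime (D 1) ∧ (p + 10).Coprime (D 2))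

open Classical in
/-- the primes `p` with `29 n ≤ p ^ 2 ≤ 30 n` which have the form `p = x + 2 y + 5 z` for a representation
`n = x² + y² + z² + w²`, and for which `p - 2 + N 0`, `p + 4 + N 1` and `p + 10 + N 2` are prime -/
noncomputable def Good (n : ℕ) (N : Fin 3 → ℤ) : Finset ℕ :=
  (range (30 * n + 1)).filter (fun p : ℕ => 29 * n ≤ p ^ 2 ∧ p ^ 2 ≤ 30 * n ∧ p.Prime ∧
    (∃ x y z w : ℕ, n = x ^ 2 + y ^ 2 + z ^ 2 + w ^ 2 ∧ p = x + 2 * y + 5 * z) ∧
    ((p : ℤ) - 2 + N 0).toNat.Prime ∧ ((p : ℤ) + 4 + N 1).toNat.Prime ∧ ((p : ℤ) + 10 + N 2).toNat.Prime)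

open Classical in
/-- from the uniform distributions on three finite sets to the number of the triples -/
lemma count3 (R : Finset ℕ) (W : Fin 3 → Finset ℕ) (hW : ∀ j, W j ⊆ R) (hne : ∀ j, (0 : ℝ) < (W j).card)
    (μ : Fin 3 → ℕ → ℝ) (hμ0 : ∀ j v, 0 ≤ μ j v) (hμ : ∀ j, ∀ v ∈ W j, μ j v = 1 / ((W j).card : ℝ))
    (Q : (Fin 3 → ℕ) → Prop) (ε : ℝ)
    (h : ∑ v ∈ Fintype.piFinset (fun _ : Fin 3 => R), (if Q v then 0 else ∏ j, μ j (v j)) ≤ ε) :
    (((Fintype.piFinset W).filter fun v => ¬ Q v).card : ℝ) ≤ ε * ∏ j, ((W j).card : ℝ) := by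
  have hp : 0 < ∏ j, ((W j).card : ℝ) := prod_pos fun j _ => hne j
  rw [← div_le_iff₀ hp]
  refine le_trans ?_ h
  have hsub : (Fintype.piFinset W).filter (fun v => ¬ Q v) ⊆ Fintype.piFinset (fun _ : Fin 3 => R) := by
    intro v hv
    rw [mem_filter, Fintype.mem_piFinset] at hv
    rw [Fintype.mem_piFinset]
    exact fun j => hW j (hv.1 j)
  refine le_trans (le_of_eq ?_) (sum_le_sum_of_subset_of_nonneg hsub fun v _ _ => ?_)
  · have h1 : ∀ v ∈ (Fintype.piFinset W).filter (fun v => ¬ Q v), (if Q v then (0 : ℝ) else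
      ∏ j, μ j (v j)) = 1 / ∏ j, ((W j).card : ℝ) := by
      intro v hv
      rw [mem_filter, Fintype.mem_piFinset] at hv
      rw [if_neg hv.2, one_div, ← prod_inv_distrib]
      exact prod_congr rfl fun j _ => by rw [hμ j _ (hv.1 j), one_div]
    rw [sum_congr rfl h1, sum_const, nsmul_eq_mul, mul_one_div]
  · split_ifs
    · exact le_rfl
    · exact prod_nonneg fun j _ => hμ0 j _

open Classical in
/-- Let `δ` be a graph whose edges are labelled with the digits in base `b`, let `x` be a vertex, and let `ρ > 0` be such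
that there are at most `ρ ^ (2 m)` closed walks of the length `2 m` at `x`, for all `m`. Let `z 0`, `z 1`, `z 2` be vertices
such that the number of the walks of the length `d` from `x` to `z j` is at least `ρ ^ d / d ^ D`, let `y` be between
`θ log d` and `K₁ log d` (`θ > 0` is arbitrary), `M` the product of the primes `≤ y`, `|c j| ≤ B b ^ d`, `1 ≤ h j ≤ d ^ J`,
and let `n` be ANY integer which is not divisible by `4`, with `b ^ (2 d) ≤ n d ^ C`, `n ≤ b ^ (2 d) d ^ C`. Let `A` be the
set of the primes `p` with `29 n ≤ p ^ 2 ≤ 30 n` such that `p - 2`, `p + 4`, `p + 10` are prime to `M h_0`, `M h_1`, `M h_2`.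
It has at least `√n / d ^ (6 K₁ + 3 J + 3)` elements. For all triples of integers `v j < b ^ d` whose `d` digits are the
labels of a walk from `x` to `z j`, with the exception of a proportion of at most `ε` of them, the integers
`N_j = M h_j (c_j + κ_j v_j)` have the following property: if all `N_j > 0`, then the number of ALL primes `p` with
`29 n ≤ p ^ 2 ≤ 30 n` such that `n = x² + y² + z² + w²` and `p = x + 2 y + 5 z` for some natural numbers, and such that
`p - 2 + N_0`, `p + 4 + N_1` and `p + 10 + N_2` are prime, differs from `E = #A / (V y log b ^ d) ^ 3` by at most `ε E`.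
(`d` must be large in terms of the graph, `x` and the fixed parameters, but not in terms of the `z j`, `y`, `c`, `h`, `n`.) -/
theorem result (b : ℕ) (X : Type) (δ : X → ℕ → Option X) (hG : Graph b δ) (x : X) (ρ : ℝ) (hρ : 0 < ρ)
    (hR : ∀ m : ℕ, ((walks b δ (2 * m) x x).card : ℝ) ≤ ρ ^ (2 * m)) (D : ℕ) (κ : Fin 3 → ℤ) (hκ : ∀ j, κ j ≠ 0)
    (B J C K₁ : ℕ) (θ : ℝ) (hθ : 0 < θ) (ε : ℝ) (hε : 0 < ε) (hε1 : ε ≤ 1) : ∃ d₀ : ℕ, ∀ d : ℕ, d₀ ≤ d →
    ∀ z : Fin 3 → X, (∀ j, ρ ^ d / (d : ℝ) ^ D ≤ (walks b δ d x (z j)).card) →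
    ∀ y : ℕ, θ * Real.log d ≤ y → y ≤ K₁ * Real.log d →
    ∀ c : Fin 3 → ℤ, (∀ j, |c j| ≤ B * (b : ℤ) ^ d) → ∀ h : Fin 3 → ℕ, (∀ j, 1 ≤ h j ∧ h j ≤ d ^ J) →
    ∀ n : ℕ, ¬ 4 ∣ n → b ^ (2 * d) ≤ n * d ^ C → n ≤ b ^ (2 * d) * d ^ C →
      √(n : ℝ) ≤ ((Adm (fun j => primorial y * h j) n).card : ℝ) * (d : ℝ) ^ (6 * K₁ + 3 * J + 3) ∧
      (((Fintype.piFinset fun j : Fin 3 => walks b δ d x (z j)).filter fun v =>
        ¬ ((∀ j, 0 < Nv y (h j) (c j) (κ j) (v j)) →
        |((Good n (fun j => Nv y (h j) (c j) (κ j) (v j))).card : ℝ) -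
            (Adm (fun j => primorial y * h j) n).card / (V y * (d * Real.log b)) ^ 3| ≤
          ε * ((Adm (fun j => primorial y * h j) n).card / (V y * (d * Real.log b)) ^ 3))).card : ℝ) ≤
        ε * ∏ j, ((walks b δ d x (z j)).card : ℝ) := by
  obtain ⟨d₀, h0⟩ := Pool.Agent.L5helper16.XC.Q4.quadruples (Pool.Agent.L5helper16.XC.pc_walks (δ := δ) ⟨hG.symm, hG.two⟩ x ρ
    hρ hR D) κ hκ B J C K₁ θ hθ ε hε hε1
  refine ⟨d₀ + 1, fun d hd z hz y hy1 hy2 c hc h hh n hn4 hn1 hn2 => ?_⟩
  have hd1 : (0 : ℝ) < (d : ℝ) ^ D := by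
    have : (0 : ℝ) < d := by exact_mod_cast (by omega : 0 < d)
    positivity
  have hz' : ∀ j, ρ ^ d ≤ (d : ℝ) ^ D * (walks b δ d x (z j)).card := fun j => by
    have := hz j
    rw [div_le_iff₀ hd1, mul_comm] at this
    exact this
  have hpos : ∀ j, (0 : ℝ) < (walks b δ d x (z j)).card := fun j => by
    have h1 : 0 < (walks b δ d x (z j)).card := by
      rcases Nat.eq_zero_or_pos (walks b δ d x (z j)).card with h2 | h2
      · exfalso
        have h3 := hz j
        rw [h2, Nat.cast_zero] at h3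
        have : 0 < ρ ^ d / (d : ℝ) ^ D := by positivity
        linarith
      · exact h2
    exact_mod_cast h1
  obtain ⟨μ, hμ⟩ : ∃ μ : Fin 3 → ℕ → ℝ, ∀ j, μ j = fun v => if v ∈ walks b δ d x (z j) then
    1 / ((walks b δ d x (z j)).card : ℝ) else 0 := ⟨_, fun _ => rfl⟩
  obtain ⟨h1, h2⟩ := h0 d (by omega) μ (fun j => ⟨z j, hz' j, hμ j⟩) y hy1 hy2 c hc h hh n hn4 hn1 hn2
  refine ⟨h1, ?_⟩
  have h3 := count3 (range (b ^ d)) (fun j => walks b δ d x (z j)) (fun j => filter_subset _ _) hpos μ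
    (fun j v => by
      rw [hμ j]
      simp only
      split_ifs <;> positivity)
    (fun j v hv => by
      rw [hμ j]
      simp only
      rw [if_pos hv])
    (fun v => (∀ j, 0 < Nv y (h j) (c j) (κ j) (v j)) →
        |((Good n (fun j => Nv y (h j) (c j) (κ j) (v j))).card : ℝ) -
            (Adm (fun j => primorial y * h j) n).card / (V y * (d * Real.log b)) ^ 3| ≤
          ε * ((Adm (fun j => primorial y * h j) n).card / (V y * (d * Real.log b)) ^ 3)) ε
  refine le_trans (le_of_eq ?_) (h3 (le_trans (le_of_eq ?_) h2))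
  · congr!
  · apply sum_congr rfl
    intro v _
    congr!

end Pool.Agent.Results.MP_40574a_nt.WalkQuadruples
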